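import Pool.Agent.Q239.Near.Arith3

/-!
# The 2-near perfect numbers `2 ^ k * p ^ m` with `m ≥ 2`

They are 18, 36, 200 and the numbers `2 ^ k * p ^ 3`, where `p = 2 ^ (k + 1) - 1` is a Mersenne prime (with the
omitted divisors `p` and `p ^ 2`).  So there are finitely many of them iff there are finitely many Mersenne
primes.
-/

set_option autoImplicit false

open Finset

namespace Pool.Agent.Results.MP_d695ac_nt.Classification

/-- `n` is 2-near perfect: `σ(n) = 2 n + d₁ + d₂` for two distinct positive divisors `d₁`, `d₂` of `n`. -/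
def IsTwoNearPerfect (n : ℕ) : Prop :=
  0 < n ∧ ∃ d₁ ∈ n.divisors, ∃ d₂ ∈ n.divisors, d₁ ≠ d₂ ∧ ∑ d ∈ n.divisors, d = 2 * n + d₁ + d₂

open Q239.Near

theorem sum_divisors_pow {p : ℕ} (hp : p.Prime) (m : ℕ) : ∑ d ∈ (p ^ m).divisors, d = G p (m + 1) := by
  rw [Nat.sum_divisors_prime_pow hp]
  rfl

theorem sum_divisors_mul {p : ℕ} (hp : p.Prime) (hp2 : p ≠ 2) (k m : ℕ) :
    ∑ d ∈ (2 ^ k * p ^ m).divisors, d = (2 ^ (k + 1) - 1) * G p (m + 1) := by
  have hcop : Nat.Coprime (2 ^ k) (p ^ m) :=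
    Nat.Coprime.pow _ _ ((Nat.coprime_primes Nat.prime_two hp).2 (Ne.symm hp2))
  have h2 : G 2 (k + 1) = 2 ^ (k + 1) - 1 := by
    have := geom 2 (k + 1)
    have := Nat.one_le_two_pow (n := k + 1)
    omega
  rw [← h2, ← sum_divisors_pow Nat.prime_two, ← sum_divisors_pow hp, ← ArithmeticFunction.sigma_one_apply,
    ← ArithmeticFunction.sigma_one_apply, ← ArithmeticFunction.sigma_one_apply]
  exact ArithmeticFunction.isMultiplicative_sigma.map_mul_of_coprime hcop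

/-- The equation for the omitted divisors. -/
theorem equation {p k m d1 d2 : ℕ} (hp : p.Prime) (hp2 : p ≠ 2)
    (h : ∑ d ∈ (2 ^ k * p ^ m).divisors, d = 2 * (2 ^ k * p ^ m) + d1 + d2) :
    2 ^ (k + 1) * G p m = G p (m + 1) + d1 + d2 := by
  rw [sum_divisors_mul hp hp2] at h
  obtain ⟨N, hN⟩ : ∃ N, 2 ^ (k + 1) = N + 1 := ⟨2 ^ (k + 1) - 1, by
    have : 1 ≤ 2 ^ (k + 1) := Nat.one_le_two_pow
    omega⟩
  have h2 : 2 * (2 ^ k * p ^ m) = (N + 1) * p ^ m := by rw [← hN]; ring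
  rw [h2, hN, Nat.add_sub_cancel] at h
  rw [hN]
  have h3 := G_succ p m
  rw [h3] at h ⊢
  nlinarith

/-- The classification for omitted divisors in a fixed order. -/
theorem main {p k m a1 a2 b1 b2 : ℕ} (hp : p.Prime) (hp2 : p ≠ 2) (hm : 2 ≤ m) (ha1 : a1 ≤ k) (ha2 : a2 ≤ k)
    (hb2 : b2 ≤ m) (hord : b1 < b2 ∨ (b1 = b2 ∧ a1 < a2))
    (h : 2 ^ (k + 1) * G p m = G p (m + 1) + 2 ^ a1 * p ^ b1 + 2 ^ a2 * p ^ b2) :
    (k = 1 ∧ p = 3 ∧ m = 2) ∨ (k = 2 ∧ p = 3 ∧ m = 2) ∨ (k = 3 ∧ p = 5 ∧ m = 2) ∨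
      (m = 3 ∧ 2 ^ (k + 1) = p + 1) := by
  have hodd : p % 2 = 1 := hp.eq_two_or_odd.resolve_left hp2
  have hp3 : 3 ≤ p := by
    have := hp.two_le
    omega
  have hMp : p < 2 ^ (k + 1) := by
    by_contra hne
    have h1 : 2 ^ (k + 1) * G p m ≤ p * G p m := Nat.mul_le_mul_right _ (by omega)
    rw [G_succ'] at h
    omega
  rcases hord with hlt | ⟨rfl, hlt⟩
  · rcases Nat.lt_or_ge b2 m with hb | hb
    · obtain ⟨n, rfl⟩ : ∃ n, m = n + 2 := ⟨m - 2, by omega⟩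
      have := caseA1 hp hp3 hodd ha1 ha2 hlt (by omega) hMp h
      right; right; right
      exact ⟨by omega, this.2⟩
    · obtain rfl : b2 = m := by omega
      rcases Nat.lt_or_ge b1 (b2 - 1) with hb1 | hb1
      · rcases Nat.eq_zero_or_pos b1 with rfl | hb0
        · have := caseC1_zero hp3 hodd ha1 ha2 hMp hm h
          right; left
          exact ⟨this.2.2, this.2.1, this.1⟩
        · obtain ⟨g, rfl⟩ : ∃ g, b2 = b1 + g := ⟨b2 - b1, by omega⟩
          rcases Nat.lt_or_ge b1 2 with hb3 | hb3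
          · obtain rfl : b1 = 1 := by omega
            exact (caseC1_one hp3 hodd ha1 ha2 hMp (by omega) h).elim
          · exact (caseC1_two hp3 hodd ha1 ha2 hMp hb3 (by omega) h).elim
      · obtain rfl : b1 = b2 - 1 := by omega
        rcases Nat.lt_or_ge b2 3 with hm3 | hm3
        · obtain rfl : b2 = 2 := by omega
          have := caseC2_two hp3 hodd ha1 ha2 hMp h
          right; right; left
          exact ⟨this.2, this.1, rfl⟩
        · obtain ⟨n, rfl⟩ : ∃ n, b2 = n + 2 := ⟨b2 - 2, by omega⟩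
          rw [show n + 2 - 1 = n + 1 by omega] at h
          exact (caseC2_ge hp3 hodd ha1 ha2 hMp (by omega) h).elim
  · obtain ⟨n, rfl⟩ : ∃ n, m = n + 2 := ⟨m - 2, by omega⟩
    have h' : 2 ^ (k + 1) * G p (n + 2) = G p (n + 3) + (2 ^ a1 + 2 ^ a2) * p ^ b1 := by
      rw [h]; ring
    rcases Nat.lt_or_ge b1 (n + 2) with hb | hb
    · have := caseA2 hp hp3 hodd hlt ha2 (by omega) hMp h'
      left
      exact ⟨this.2.2, this.2.1, by omega⟩
    · obtain rfl : b1 = n + 2 := by omega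
      exact (caseB hp3 hodd hlt ha2 hMp h').elim

theorem exists_exponents {p k m d : ℕ} (hp : p.Prime) (hd : d ∣ 2 ^ k * p ^ m) :
    ∃ a ≤ k, ∃ b ≤ m, d = 2 ^ a * p ^ b := by
  obtain ⟨x, y, hx, hy, rfl⟩ := (Nat.dvd_mul).1 hd
  obtain ⟨a, ha, rfl⟩ := (Nat.dvd_prime_pow Nat.prime_two).1 hx
  obtain ⟨b, hb, rfl⟩ := (Nat.dvd_prime_pow hp).1 hy
  exact ⟨a, ha, b, hb, rfl⟩

/-- A 2-near perfect number `2 ^ k * p ^ m` with `m ≥ 2` is in the list. -/
theorem classify {p k m : ℕ} (hp : p.Prime) (hm : 2 ≤ m) (h : IsTwoNearPerfect (2 ^ k * p ^ m)) :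
    (k = 1 ∧ p = 3 ∧ m = 2) ∨ (k = 2 ∧ p = 3 ∧ m = 2) ∨ (k = 3 ∧ p = 5 ∧ m = 2) ∨
      (m = 3 ∧ 2 ^ (k + 1) = p + 1) := by
  obtain ⟨-, d1, hd1, d2, hd2, hne, hsum⟩ := h
  by_cases hp2 : p = 2
  · exfalso
    subst hp2
    rw [← pow_add, sum_divisors_pow Nat.prime_two] at hsum
    have h1 := geom 2 (k + m + 1)
    have h2 : 2 ^ (k + m + 1) = 2 * 2 ^ (k + m) := by ring
    omega
  have he := equation hp hp2 hsum
  obtain ⟨a1, ha1, b1, hb1, rfl⟩ := exists_exponents hp (Nat.dvd_of_mem_divisors hd1)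
  obtain ⟨a2, ha2, b2, hb2, rfl⟩ := exists_exponents hp (Nat.dvd_of_mem_divisors hd2)
  rcases lt_trichotomy b1 b2 with hb | rfl | hb
  · exact main hp hp2 hm ha1 ha2 hb2 (Or.inl hb) he
  · rcases lt_trichotomy a1 a2 with ha | rfl | ha
    · exact main hp hp2 hm ha1 ha2 hb2 (Or.inr ⟨rfl, ha⟩) he
    · exact absurd rfl hne
    · exact main hp hp2 hm ha2 ha1 hb1 (Or.inr ⟨rfl, ha⟩) (by rw [he]; ring)
  · exact main hp hp2 hm ha2 ha1 hb1 (Or.inl hb) (by rw [he]; ring)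

theorem mersenne_mem {k : ℕ} (hp : (2 ^ (k + 1) - 1).Prime) :
    IsTwoNearPerfect (2 ^ k * (2 ^ (k + 1) - 1) ^ 3) := by
  obtain ⟨p, hpe⟩ : ∃ p, p = 2 ^ (k + 1) - 1 := ⟨_, rfl⟩
  rw [← hpe] at hp ⊢
  have hM : 2 ^ (k + 1) = p + 1 := by
    have := Nat.one_le_two_pow (n := k + 1)
    omega
  have hp2 : p ≠ 2 := by
    rintro rfl
    have : 2 ∣ 2 ^ (k + 1) := dvd_pow_self 2 (by omega)
    omega
  have hpos : 0 < 2 ^ k * p ^ 3 := by have := hp.pos; positivity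
  refine ⟨hpos, p, ?_, p ^ 2, ?_, ?_, ?_⟩
  · rw [Nat.mem_divisors]
    exact ⟨(dvd_pow_self p (by norm_num)).mul_left _, hpos.ne'⟩
  · rw [Nat.mem_divisors]
    exact ⟨(pow_dvd_pow p (by norm_num)).mul_left _, hpos.ne'⟩
  · intro h
    have := hp.two_le
    nlinarith
  · rw [sum_divisors_mul hp hp2, hM, Nat.add_sub_cancel]
    have h2 : 2 * (2 ^ k * p ^ 3) = (p + 1) * p ^ 3 := by rw [← hM]; ring
    have h3 : G p (3 + 1) = 1 + p + p ^ 2 + p ^ 3 := by
      rw [G_succ, G_succ, G_two]; ring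
    rw [h2, h3]
    ring

/-- The set of the 2-near perfect numbers of the form `2 ^ k * p ^ m` with `p` prime, `k ≥ 0`, `m ≥ 2`. -/
def S : Set ℕ := {n | IsTwoNearPerfect n ∧ ∃ k p m : ℕ, p.Prime ∧ 2 ≤ m ∧ n = 2 ^ k * p ^ m}

/-- The 2-near perfect numbers of the form `2 ^ k * p ^ m`, `p` prime, `k ≥ 0`, `m ≥ 2`, are exactly 18, 36,
200 and the numbers `2 ^ k * p ^ 3` with `p = 2 ^ (k + 1) - 1` prime.  In particular there are finitely many of
them iff there are finitely many Mersenne primes. -/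
theorem result :
    S = {18, 36, 200} ∪ {n | ∃ k : ℕ, (2 ^ (k + 1) - 1).Prime ∧ n = 2 ^ k * (2 ^ (k + 1) - 1) ^ 3} ∧
    (S.Finite ↔ {p : ℕ | p.Prime ∧ ∃ q : ℕ, p = 2 ^ q - 1}.Finite) := by
  have h1 : S = {18, 36, 200} ∪ {n | ∃ k : ℕ, (2 ^ (k + 1) - 1).Prime ∧ n = 2 ^ k * (2 ^ (k + 1) - 1) ^ 3} := by
    ext n
    constructor
    · rintro ⟨hn, k, p, m, hp, hm, rfl⟩
      rcases classify hp hm hn with ⟨rfl, rfl, rfl⟩ | ⟨rfl, rfl, rfl⟩ | ⟨rfl, rfl, rfl⟩ | ⟨rfl, hM⟩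
      · left; norm_num
      · left; norm_num
      · left; norm_num
      · right
        have : 2 ^ (k + 1) - 1 = p := by omega
        exact ⟨k, by rw [this]; exact hp, by rw [this]⟩
    · rintro (hn | ⟨k, hk, rfl⟩)
      · have h18 : IsTwoNearPerfect 18 := ⟨by norm_num, 1, by decide, 2, by decide, by norm_num, by decide⟩
        have h36 : IsTwoNearPerfect 36 := ⟨by norm_num, 1, by decide, 18, by decide, by norm_num, by decide⟩
        have h200 : IsTwoNearPerfect 200 :=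
          ⟨by norm_num, 25, by rw [Nat.mem_divisors]; norm_num, 40, by rw [Nat.mem_divisors]; norm_num,
            by norm_num, by rfl⟩
        rcases hn with rfl | rfl | rfl
        · exact ⟨h18, 1, 3, 2, Nat.prime_three, le_refl _, by norm_num⟩
        · exact ⟨h36, 2, 3, 2, Nat.prime_three, le_refl _, by norm_num⟩
        · exact ⟨h200, 3, 5, 2, Nat.prime_five, le_refl _, by norm_num⟩
      · exact ⟨mersenne_mem hk, k, _, 3, hk, by norm_num, rfl⟩
  refine ⟨h1, ?_, ?_⟩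
  · intro hS
    refine (hS.biUnion fun n _ => n.primeFactors.finite_toSet).subset ?_
    rintro p ⟨hp, q, hq⟩
    have hq1 : q ≠ 0 := by
      rintro rfl
      rw [hq] at hp
      exact absurd hp (by norm_num)
    obtain ⟨k, rfl⟩ : ∃ k, q = k + 1 := ⟨q - 1, by omega⟩
    have hk : (2 ^ (k + 1) - 1).Prime := hq ▸ hp
    refine Set.mem_biUnion (x := 2 ^ k * (2 ^ (k + 1) - 1) ^ 3) ?_ ?_
    · rw [h1]
      exact Or.inr ⟨k, hk, rfl⟩
    · rw [Finset.mem_coe, Nat.mem_primeFactors]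
      refine ⟨hp, ?_, ?_⟩
      · rw [← hq]
        exact (dvd_pow_self p (by norm_num)).mul_left _
      · have := hk.pos
        positivity
  · intro hM
    rw [h1]
    refine Set.Finite.union (by simp) ((hM.image fun p => (p + 1) / 2 * p ^ 3).subset ?_)
    rintro n ⟨k, hk, rfl⟩
    refine ⟨2 ^ (k + 1) - 1, ⟨hk, k + 1, rfl⟩, ?_⟩
    have h2 : (2 ^ (k + 1) - 1 + 1) / 2 = 2 ^ k := by
      have := Nat.one_le_two_pow (n := k + 1)
      rw [Nat.sub_add_cancel this, pow_succ, Nat.mul_div_cancel _ (by norm_num)]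
    show (2 ^ (k + 1) - 1 + 1) / 2 * (2 ^ (k + 1) - 1) ^ 3 = _
    rw [h2]

end Pool.Agent.Results.MP_d695ac_nt.Classification
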